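import Pool.Agent.Y992.HE.Stm
import Pool.Agent.H983R2.LG.InfL
import Pool.Agent.H983R2.GC.Removal
import Pool.Agent.W405.UG.Osc

set_option autoImplicit false

/-! Project HE, job REV: revealing the vertices of level `k + 1`, smallest influence per path
first (after Pool.Agent.Y891.HL.Rev). -/

namespace Pool.Agent.Y658.HE

open Finset Pool.Agent.H983R2.GC Pool.Agent.W341.UG Pool.Agent.Y992.HL Pool.Agent.Y992.HE

/-- The potential. -/
noncomputable def Phi (T P : ℝ) : ℝ := if P ≤ T then 0 else 1 + Real.log (P / T)

theorem Phi_step (T P P' a : ℝ) (hT : 0 < T) (hP : T < P) (ha : a ≤ P) (hP' : P' = P - a) :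
    a / P + Phi T P' ≤ Phi T P := by
  have hP0 : 0 < P := hT.trans hP
  have h1 : Phi T P = 1 + Real.log (P / T) := by
    rw [Phi, if_neg (not_le.2 hP)]
  have h2 : 0 ≤ Real.log (P / T) := by
    apply Real.log_nonneg
    rw [le_div_iff₀ hT]
    linarith
  by_cases h : P' ≤ T
  · have h3 : Phi T P' = 0 := by rw [Phi, if_pos h]
    have h4 : a / P ≤ 1 := by
      rw [div_le_one hP0]
      exact ha
    rw [h1, h3]
    linarith
  · have h3 : Phi T P' = 1 + Real.log (P' / T) := by rw [Phi, if_neg h]
    have hP'0 : 0 < P' := hT.trans (not_le.1 h)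
    have h4 : Real.log (P' / T) = Real.log (P / T) + Real.log (P' / P) := by
      rw [← Real.log_mul (by positivity) (by positivity)]
      congr 1
      field_simp
    have h5 : Real.log (P' / P) ≤ P' / P - 1 := Real.log_le_sub_one_of_pos (by positivity)
    have h6 : a / P = 1 - P' / P := by
      rw [hP']
      field_simp
      ring
    rw [h1, h3, h4, h6]
    linarith

section

variable {V C : Type} [Fintype V] [DecidableEq V] [Fintype C] [DecidableEq C]

theorem rev_inner (hB : Pool.Agent.Y992.HE.S_BFS) (hNT : S_NT) (hO : S_OSCL)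
    (G : SimpleGraph V) (D : V → V → ℕ) (c0 : C) (s Δ N k j K : ℕ) (ε A om E β T : ℝ)
    (hs : 2 ≤ s) (hk : 1 ≤ k) (hε : 0 < ε) (hA : 0 ≤ A) (hE : 0 ≤ E) (hβ : 0 ≤ β) (hT : 0 < T)
    (hD : GE G D (β * s) K) (hK : k + 2 ≤ K)
    (hΔ : ∀ w, (nb G univ w).card ≤ Δ) (hεΔ : ε * (Δ : ℝ) ≤ s) (hIB : IBD G D c0 s N j A)
    (hsumE : ∀ (R : Finset V) (L : V → Finset C) (v : V) (b c : C) (W : Finset V),
      R.card ≤ N + 1 → v ∉ R → Sl G s R L → SlP G s R (nb G R v) L → W ⊆ R →
      (∀ w ∈ W, D v w = k + 1) →
      ∑ w ∈ W, ∑ a, |pr G c0 R (era L (nb G R v) b) w a - pr G c0 R (era L (nb G R v) c) w a| ≤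
        E) (v : V) (b c : C) (n : ℕ) :
    ∀ (R : Finset V) (L : V → Finset C) (F : (V → C) → ℝ) (W : Finset V),
      R.card ≤ N + 1 → v ∉ R → Sl G s R L → SlP G s R (nb G R v) L → W ⊆ R → Lip W F →
      ((om = 1 ∧ j = 0) ∨ (om = 0 ∧ 1 ≤ j ∧ ∀ w ∈ W, j + (k + 1) ≤ D v w)) →
      R.card = n →
      |EE G c0 R (era L (nb G R v) b) F - EE G c0 R (era L (nb G R v) c) F| ≤
        om * ∑ i ∈ Finset.range (k + 1), (2 / ε) ^ (i + 1) +
          (om + A) * (2 * β * ∑ i ∈ Finset.range (k + 1), (2 / ε) ^ i) +
          (2 / (s : ℝ)) ^ (k + 1) * T * A +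
          (om + A) * (E * Phi T (PN G D R v k : ℝ)) := by
  have hs0 : (0 : ℝ) ≤ 2 / (s : ℝ) := by positivity
  induction n with
  | zero =>
    intro R L F W hR hv hSl hSlP hW hF hom hcard
    have h1 := hB V C G D c0 s Δ N k j K ε A om β hs hε hA hβ hD hK hΔ hεΔ hIB R L v b c F W hR hv
      hSl hSlP hW hF hom
    refine h1.trans ?_
    obtain ⟨-, ly3, -⟩ := hNT V G D Δ K (β * s) hD hΔ R v hv
    have hP0 : PN G D R v k = 0 := by
      rw [PN, Finset.sum_eq_zero_iff]
      intro y _
      by_contra hy
      have h2 := (ly3 (k + 1) y hy).2.1 (by omega)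
      rw [Finset.card_eq_zero] at hcard
      rw [hcard] at h2
      exact absurd h2 (Finset.notMem_empty y)
    have h3 : Phi T (PN G D R v k : ℝ) = 0 := by
      rw [hP0, Phi, if_pos]
      push_cast
      exact hT.le
    rw [h3, mul_zero, mul_zero, add_zero, hP0]
    have h4 : 0 ≤ (2 / (s : ℝ)) ^ (k + 1) * T * A := by positivity
    have h5 : (2 / (s : ℝ)) ^ (k + 1) * ((0 : ℕ) : ℝ) * A = 0 := by
      push_cast
      ring
    rw [h5]
    linarith
  | succ n ih =>
    intro R L F W hR hv hSl hSlP hW hF hom hcard
    by_cases hn : (PN G D R v k : ℝ) ≤ T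
    · have h1 := hB V C G D c0 s Δ N k j K ε A om β hs hε hA hβ hD hK hΔ hεΔ hIB R L v b c F W hR
        hv hSl hSlP hW hF hom
      refine h1.trans ?_
      have h3 : Phi T (PN G D R v k : ℝ) = 0 := by
        rw [Phi, if_pos hn]
      rw [h3, mul_zero, mul_zero, add_zero]
      have h4 : (2 / (s : ℝ)) ^ (k + 1) * (PN G D R v k : ℝ) * A ≤
          (2 / (s : ℝ)) ^ (k + 1) * T * A := by
        apply mul_le_mul_of_nonneg_right _ hA
        apply mul_le_mul_of_nonneg_left hn
        positivity
      linarith
    · obtain ⟨-, ly3, ly6⟩ := hNT V G D Δ K (β * s) hD hΔ R v hv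
      set U := R.filter (fun w => D v w = k + 1) with hU
      have hUR : U ⊆ R := Finset.filter_subset _ _
      have hUd : ∀ w ∈ U, D v w = k + 1 := fun w hw => (Finset.mem_filter.1 hw).2
      have hsum := hsumE R L v b c U hR hv hSl hSlP hUR hUd
      have hP : T < (PN G D R v k : ℝ) := not_le.1 hn
      have hP0 : 0 < (PN G D R v k : ℝ) := hT.trans hP
      have hPU : (PN G D R v k : ℝ) = ∑ w ∈ U, (nt G D R v (k + 1) w : ℝ) := by
        have h1 : PN G D R v k = ∑ w ∈ U, nt G D R v (k + 1) w := by
          rw [PN]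
          symm
          apply Finset.sum_subset (Finset.subset_univ U)
          intro y _ hy
          by_contra h0
          have h2 := ly3 (k + 1) y h0
          exact hy (Finset.mem_filter.2 ⟨h2.2.1 (by omega), h2.1⟩)
        rw [h1]
        push_cast
        rfl
      have hom0 : 0 ≤ om := by
        rcases hom with ⟨h, _⟩ | ⟨h, _⟩ <;> rw [h] <;> norm_num
      -- pick w
      obtain ⟨w, hw, hw0, hTw⟩ : ∃ w ∈ U, nt G D R v (k + 1) w ≠ 0 ∧
          (∑ a, |pr G c0 R (era L (nb G R v) b) w a -
            pr G c0 R (era L (nb G R v) c) w a|) * (PN G D R v k : ℝ) ≤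
            E * (nt G D R v (k + 1) w : ℝ) := by
        by_contra hcon
        push Not at hcon
        have hex : ∃ w ∈ U, nt G D R v (k + 1) w ≠ 0 := by
          by_contra h0
          push Not at h0
          rw [hPU, Finset.sum_eq_zero (fun w hw => by rw [h0 w hw]; norm_num)] at hP0
          exact lt_irrefl _ hP0
        obtain ⟨w1, hw1, hw10⟩ := hex
        have h1 : ∑ w ∈ U, E * (nt G D R v (k + 1) w : ℝ) < ∑ w ∈ U, (∑ a,
            |pr G c0 R (era L (nb G R v) b) w a - pr G c0 R (era L (nb G R v) c) w a|) *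
              (PN G D R v k : ℝ) := by
          apply Finset.sum_lt_sum
          · intro w hw
            by_cases h0 : nt G D R v (k + 1) w = 0
            · rw [h0]
              have : 0 ≤ (∑ a, |pr G c0 R (era L (nb G R v) b) w a -
                  pr G c0 R (era L (nb G R v) c) w a|) * (PN G D R v k : ℝ) :=
                mul_nonneg (Finset.sum_nonneg fun a _ => abs_nonneg _) hP0.le
              simpa using this
            · exact (hcon w hw h0).le
          · exact ⟨w1, hw1, hcon w1 hw1 hw10⟩
        rw [← Finset.mul_sum, ← hPU, ← Finset.sum_mul] at h1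
        have h2 := mul_le_mul_of_nonneg_right hsum hP0.le
        linarith
      have hwR : w ∈ R := hUR hw
      have hwk : D v w = k + 1 := hUd w hw
      have hwnb : w ∉ nb G R v := by
        intro h
        rw [mem_nb] at h
        have h1 := hD.lip v w v h.2.symm
        have h2 : D v v = 0 := (hD.zero v v).2 rfl
        omega
      have hnb : nb G (R.erase w) v = nb G R v := by
        rw [nb_erase, Finset.erase_eq_of_notMem hwnb]
      have hLb : ∀ d : C, Sl G s R (era L (nb G R v) d) := fun d => Sl_era G s R _ L d hSl hSlP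
      have hne : ∀ d : C, (Col G c0 R (era L (nb G R v) d)).Nonempty := fun d =>
        col_nonempty G c0 _ _ (Sl_mono G (by omega) _ _ (hLb d))
      have hRcard : (R.erase w).card ≤ N + 1 := by
        have := Finset.card_erase_lt_of_mem hwR
        omega
      have hRcard' : (R.erase w).card ≤ N := by
        have := Finset.card_erase_lt_of_mem hwR
        omega
      -- distance from w
      have hfarw : ∀ x ∈ W.erase w, j ≤ D w x := by
        rcases hom with ⟨_, hj⟩ | ⟨_, _, hfar⟩
        · intro x _
          omega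
        · intro x hx
          have h1 := hfar x (mem_of_mem_erase hx)
          have h2 := (ly3 (k + 1) w hw0).2.2 x
          omega
      have hwW : om = 0 → w ∉ W := by
        intro h0 hwW
        rcases hom with ⟨h1, _⟩ | ⟨_, hj, hfar⟩
        · rw [h0] at h1; norm_num at h1
        · have := hfar w hwW
          omega
      set P : C → C → ℝ := fun d a => pr G c0 R (era L (nb G R v) d) w a with hPdef
      set X : C → C → ℝ := fun d a => EE G c0 (R.erase w) (era (era L (nb G R v) d) (nb G R w) a)
        (fun τ => F (Function.update τ w a)) with hX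
      have hsplit : ∀ d, EE G c0 R (era L (nb G R v) d) F = ∑ a, P d a * X d a := fun d =>
        il_EE_split G c0 R _ w hwR F
      -- closeness in a
      have hXa : ∀ d a a', |X d a - X d a'| ≤ om + A := by
        intro d a a'
        have h1 := hO V C G c0 s R (era L (nb G R v) d) w F W A hs hA hwR (hLb d) hF (by
          intro F' hF' a a'
          have h := hIB (R.erase w) (era L (nb G R v) d) w a a' F' (W.erase w) hRcard'
            (notMem_erase w R) (Sl_del G s R _ w hwR (hLb d))
            (SlP_del G s R _ w hwR (hLb d)) (erase_subset_erase w hW) hF' hfarw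
          rwa [nb_erase_self] at h)
        rcases hom with ⟨h0, _⟩ | ⟨h0, _⟩
        · rw [h0]
          exact h1.2.1 a a'
        · rw [h0, zero_add]
          exact (h1.1 (hwW h0)).1 a a'
      -- the new number of paths
      have hPN' : (PN G D (R.erase w) v k : ℝ) =
          (PN G D R v k : ℝ) - (nt G D R v (k + 1) w : ℝ) := by
        have h1 : PN G D R v k = PN G D (R.erase w) v k + nt G D R v (k + 1) w := by
          have h2 : nt G D R v (k + 1) w = ∑ y, if y = w then nt G D R v (k + 1) y else 0 := by
            rw [Finset.sum_ite_eq' Finset.univ w, if_pos (Finset.mem_univ w)]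
          rw [PN, PN, h2, ← Finset.sum_add_distrib]
          refine Finset.sum_congr rfl fun y _ => ?_
          rw [ly6 k w hwk y]
          by_cases hy : y = w
          · rw [if_pos hy, if_pos hy, zero_add]
          · rw [if_neg hy, if_neg hy, add_zero]
        rw [h1]
        push_cast
        ring
      have hale : (nt G D R v (k + 1) w : ℝ) ≤ (PN G D R v k : ℝ) := by
        have : (0 : ℝ) ≤ (PN G D (R.erase w) v k : ℝ) := Nat.cast_nonneg _
        linarith
      have hPhi := Phi_step T (PN G D R v k : ℝ) (PN G D (R.erase w) v k : ℝ)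
        (nt G D R v (k + 1) w : ℝ) hT hP hale hPN'
      -- closeness in d
      set BB : ℝ := om * ∑ i ∈ Finset.range (k + 1), (2 / ε) ^ (i + 1) +
          (om + A) * (2 * β * ∑ i ∈ Finset.range (k + 1), (2 / ε) ^ i) +
          (2 / (s : ℝ)) ^ (k + 1) * T * A +
          (om + A) * (E * Phi T (PN G D (R.erase w) v k : ℝ)) with hBB
      have hXd : ∀ a, |X b a - X c a| ≤ BB := by
        intro a
        have hcardn : (R.erase w).card = n := by
          rw [Finset.card_erase_of_mem hwR, hcard]
          rfl
        have := ih (R.erase w) (era L (nb G R w) a) (fun τ => F (Function.update τ w a))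
          (W.erase w) hRcard (fun h => hv (mem_of_mem_erase h)) (Sl_pin G s R L w a hwR hSl)
          (by rw [hnb]; exact rem_SlP_pin G s R _ L w a hwR hSlP) (erase_subset_erase w hW)
          (Lip_update W F hF w a) (by
            rcases hom with h | ⟨h0, hj, hfar⟩
            · exact Or.inl h
            · exact Or.inr ⟨h0, hj, fun x hx => hfar x (mem_of_mem_erase hx)⟩) hcardn
        rw [hnb, rem_era_comm L (nb G R w) (nb G R v) a b,
          rem_era_comm L (nb G R w) (nb G R v) a c] at this
        exact this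
      have hPsum : ∀ d, ∑ a, P d a = 1 := fun d => pr_sum G c0 R _ w (hne d)
      have hP0' : ∀ d a, 0 ≤ P d a := fun d a => pr_nonneg G c0 R _ w a
      rw [hsplit b, hsplit c]
      have key : ∑ a, P b a * X b a - ∑ a, P c a * X c a =
          ∑ a, (P b a - P c a) * (X c a - X c c0) + ∑ a, P b a * (X b a - X c a) := by
        have e1 : ∑ a, (P b a - P c a) * (X c a - X c c0) =
            ∑ a, (P b a - P c a) * X c a - (∑ a, (P b a - P c a)) * X c c0 := by
          rw [Finset.sum_mul, ← Finset.sum_sub_distrib]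
          refine Finset.sum_congr rfl fun a _ => by ring
        have e2 : ∑ a, (P b a - P c a) = 0 := by
          rw [Finset.sum_sub_distrib, hPsum, hPsum]; ring
        rw [e1, e2, zero_mul, sub_zero, ← Finset.sum_sub_distrib, ← Finset.sum_add_distrib]
        refine Finset.sum_congr rfl fun a _ => by ring
      rw [key]
      have hTw' : ∑ a, |P b a - P c a| ≤
          E * ((nt G D R v (k + 1) w : ℝ) / (PN G D R v k : ℝ)) := by
        rw [← mul_div_assoc, le_div_iff₀ hP0]
        exact hTw
      have b1 : |∑ a, (P b a - P c a) * (X c a - X c c0)| ≤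
          (om + A) * (E * ((nt G D R v (k + 1) w : ℝ) / (PN G D R v k : ℝ))) := by
        refine (Finset.abs_sum_le_sum_abs _ _).trans ?_
        calc ∑ a, |(P b a - P c a) * (X c a - X c c0)| ≤ ∑ a, (om + A) * |P b a - P c a| := by
              refine Finset.sum_le_sum fun a _ => ?_
              rw [abs_mul, mul_comm]
              exact mul_le_mul_of_nonneg_right (hXa c a c0) (abs_nonneg _)
          _ = (om + A) * ∑ a, |P b a - P c a| := by rw [Finset.mul_sum]
          _ ≤ _ := mul_le_mul_of_nonneg_left hTw' (by linarith)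
      have b2 : |∑ a, P b a * (X b a - X c a)| ≤ BB := by
        refine (Finset.abs_sum_le_sum_abs _ _).trans ?_
        calc ∑ a, |P b a * (X b a - X c a)| ≤ ∑ a, P b a * BB := by
              refine Finset.sum_le_sum fun a _ => ?_
              rw [abs_mul, abs_of_nonneg (hP0' b a)]
              exact mul_le_mul_of_nonneg_left (hXd a) (hP0' b a)
          _ = BB := by rw [← Finset.sum_mul, hPsum, one_mul]
      refine (abs_add_le _ _).trans ((add_le_add b1 b2).trans ?_)
      have h7 : (om + A) * (E * ((nt G D R v (k + 1) w : ℝ) / (PN G D R v k : ℝ) +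
          Phi T (PN G D (R.erase w) v k : ℝ))) ≤ (om + A) * (E * Phi T (PN G D R v k : ℝ)) :=
        mul_le_mul_of_nonneg_left (mul_le_mul_of_nonneg_left hPhi hE) (by linarith)
      rw [hBB]
      linarith

end

/-- Revealing the vertices of level `k + 1`, smallest influence per path first. -/
theorem t_REV (hB : Pool.Agent.Y992.HE.S_BFS) (hT : S_NT) (hO : S_OSCL) :
    Pool.Agent.Y992.HE.S_REV := by
  intro V C _ _ _ _ G D c0 s Δ N k j K ε A om E β T hs hk hε hA hE hβ hT0 hD hK hΔ hεΔ hIB hsumE
    R L v b c F W hR hv hSl hSlP hW hF hom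
  exact rev_inner hB hT hO G D c0 s Δ N k j K ε A om E β T hs hk hε hA hE hβ hT0 hD hK hΔ hεΔ hIB
    hsumE v b c _ R L F W hR hv hSl hSlP hW hF hom rfl

end Pool.Agent.Y658.HE
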